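import Pool.Agent.Y265.Cc

set_option autoImplicit false

namespace Pool.Agent.Results.MP_8292e8_an.EverySpace

open Pool.Agent.Y265.Cc

/-- Every nonzero separable real or complex Banach space carries a convex-cyclic operator `S`
such that `S ^ 2` is not convex-cyclic. -/
theorem result (𝕜 : Type*) [RCLike 𝕜] (X : Type*) [NormedAddCommGroup X] [NormedSpace 𝕜 X]
    [CompleteSpace X] [TopologicalSpace.SeparableSpace X] [Nontrivial X] :
    ∃ S : X →L[𝕜] X, ConvexCyclic S ∧ ¬ ConvexCyclic (S ^ 2) := main

end Pool.Agent.Results.MP_8292e8_an.EverySpace
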